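import Mathlib

namespace Pool.Agent.Results.MP_673260_co.TwoSplittings

open Set

/-- Finite permutations. -/
abbrev P := Σ n : ℕ, Equiv.Perm (Fin n)

/-- `f` picks positions of `π` whose entries are order-isomorphic to `σ`. -/
def Emb (σ π : P) (f : Fin σ.1 → Fin π.1) : Prop :=
  StrictMono f ∧ ∀ i j, σ.2 i < σ.2 j ↔ π.2 (f i) < π.2 (f j)

def IsClass (C : Set P) : Prop := ⟨0, 1⟩ ∈ C ∧ ∀ σ π f, Emb σ π f → π ∈ C → σ ∈ C

def merge (A B : Set P) : Set P :=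
  {π | ∃ σ ∈ A, ∃ τ ∈ B, ∃ f g, Emb σ π f ∧ Emb τ π g ∧ ∀ x, x ∈ range f ↔ x ∉ range g}

def ExactSplit (C A B : Set P) : Prop :=
  IsClass A ∧ IsClass B ∧ A ⊂ C ∧ B ⊂ C ∧ C = merge A B

/-- `Splitting C S`: `S` is an irreducible exact-splitting of `C`. -/
inductive Splitting : Set P → Set (Set P) → Prop
  | base (C) : (¬ ∃ A B, ExactSplit C A B) → Splitting C {C}
  | step (C A B S T) : ExactSplit C A B → Splitting A S → Splitting B T → Splitting C (S ∪ T)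

theorem std (π : P) (S : Finset (Fin π.1)) :
    ∃ (σ : P) (f : _), σ.1 = S.card ∧ Emb σ π f ∧ range f = S := by
  have hT : (S.map π.2.toEmbedding).card = S.card := Finset.card_map _
  let e := (S.map π.2.toEmbedding).orderIsoOfFin hT
  let f := S.orderEmbOfFin rfl
  let s : Fin S.card → Fin S.card := fun i =>
    e.symm ⟨π.2 (f i), Finset.mem_map_of_mem _ (S.orderEmbOfFin_mem rfl i)⟩
  have hs : Function.Injective s := fun i j h =>
    f.injective (π.2.injective (congrArg Subtype.val (e.symm.injective h)))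
  exact ⟨⟨S.card, Equiv.ofBijective s (Finite.injective_iff_bijective.1 hs)⟩, f, rfl,
    ⟨f.strictMono, fun i j => e.symm.lt_iff_lt⟩, S.range_orderEmbOfFin rfl⟩

theorem len {σ π : P} {f} (h : Emb σ π f) : σ.1 ≤ π.1 := by
  simpa using Fintype.card_le_of_injective f h.1.injective

theorem mono {σ π : P} {f} (h : Emb σ π f) (m : StrictMono π.2) : StrictMono σ.2 :=
  fun i j l => (h.2 i j).2 (m (h.1 l))

theorem len2 {a b n : ℕ} {f : Fin a → Fin n} {g : Fin b → Fin n}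
    (h : ∀ x, x ∈ range f ↔ x ∉ range g) : n ≤ a + b := by
  have : Function.Surjective (Sum.elim f g) := fun x => by
    by_cases c : x ∈ range g
    · obtain ⟨i, rfl⟩ := c; exact ⟨.inr i, rfl⟩
    · obtain ⟨i, rfl⟩ := (h x).2 c; exact ⟨.inl i, rfl⟩
  simpa using Fintype.card_le_of_surjective _ this

theorem ES.symm {C A B : Set P} (h : ExactSplit C A B) : ExactSplit C B A := by
  have c : ∀ A B, merge A B ⊆ merge B A := fun A B π ⟨σ, a, τ, b, f, g, h1, h2, h3⟩ =>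
    ⟨τ, b, σ, a, g, f, h2, h1, fun x => by rw [h3, not_not]⟩
  exact ⟨h.2.1, h.1, h.2.2.2.1, h.2.2.1, h.2.2.2.2.trans ((c A B).antisymm (c B A))⟩

theorem one {C A B : Set P} (h : ExactSplit C A B) : (⟨1, 1⟩ : P) ∈ A := by
  by_contra n
  refine h.2.2.2.1.2 fun π hπ => ?_
  rw [h.2.2.2.2] at hπ
  obtain ⟨σ, a, τ, b, f, g, h1, h2, h3⟩ := hπ
  have hg : Function.Surjective g := fun x => by
    by_contra c
    obtain ⟨i, -⟩ := (h3 x).2 c
    exact n (h.1.2 ⟨1, 1⟩ σ (fun _ => i) ⟨Subsingleton.strictMono _, fun p q => by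
      rw [Subsingleton.elim p q]; simp⟩ a)
  refine h.2.1.2 π τ (Function.surjInv hg) ⟨fun p q l => ?_, fun p q => ?_⟩ b
  · rw [← h2.1.lt_iff_lt]; simpa [Function.surjInv_eq] using l
  · rw [h2.2]; simp [Function.surjInv_eq]

def G : Set P := {π | π.1 ≤ 1}
def Y : Set P := {π | π.1 ≤ 3 ∨ StrictMono π.2}
def Z : Set P := {π | π ∈ Y ∧ ∀ a b c, a < b → b < c → ¬ (π.2 b < π.2 a ∧ π.2 a < π.2 c)}
def C : Set P := {π | π.1 ≤ 4 ∨ ∃ x, StrictMonoOn π.2 {x}ᶜ}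

theorem cG : IsClass G := ⟨Nat.zero_le _, fun _ _ _ h m => (len h).trans m⟩
theorem cY : IsClass Y :=
  ⟨.inl (Nat.zero_le _), fun _ _ _ h m => m.imp (len h).trans (mono h)⟩
theorem cZ : IsClass Z := ⟨⟨cY.1, fun a => a.elim0⟩, fun σ π f h m => ⟨cY.2 σ π f h m.1,
  fun a b c l1 l2 q => m.2 _ _ _ (h.1 l1) (h.1 l2) ⟨(h.2 _ _).1 q.1, (h.2 _ _).1 q.2⟩⟩⟩

theorem cC : IsClass C := by
  refine ⟨.inl (Nat.zero_le _), fun σ π f h m => ?_⟩
  rcases m with m | ⟨x, m⟩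
  · exact .inl ((len h).trans m)
  by_cases z : σ.1 = 0
  · exact .inl (by omega)
  have : ∃ y, ∀ t, t ≠ y → f t ≠ x := by
    by_cases c : x ∈ range f
    · obtain ⟨y, rfl⟩ := c
      exact ⟨y, fun t n e => n (h.1.injective e)⟩
    · exact ⟨⟨0, by omega⟩, fun t _ e => c ⟨t, e⟩⟩
  obtain ⟨y, hy⟩ := this
  exact .inr ⟨y, fun a ha b hb l => (h.2 a b).2 (m (hy a ha) (hy b hb) (h.1 l))⟩

def w : P := ⟨4, Equiv.swap 2 3⟩
theorem wY : w ∉ Y := by unfold Y w StrictMono; simp only [mem_ofPred_eq]; decide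

theorem irr {X : Set P} (h1 : (⟨5, 1⟩ : P) ∈ X) (h2 : X ⊆ Y) : ¬ ∃ A B, ExactSplit X A B := by
  have k : ∀ A B, ExactSplit X A B → ∀ σ ∈ A, ∀ f, Emb σ ⟨5, 1⟩ f → ¬ 3 ≤ σ.1 := by
    intro A B h σ a f e l
    have m : StrictMono σ.2 := mono e strictMono_id
    have a3 : (⟨3, 1⟩ : P) ∈ A := h.1.2 ⟨3, 1⟩ σ (Fin.castLE l)
      ⟨Fin.strictMono_castLE l, fun i j => by rw [m.lt_iff_lt]; rfl⟩ a
    refine wY (h2 (h.2.2.2.2 ▸ ⟨_, a3, _, one (ES.symm h), Fin.castSucc, fun _ => (3 : Fin 4),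
      ?_, ?_, ?_⟩))
    · unfold Emb StrictMono; decide
    · unfold Emb StrictMono; decide
    · exact (by decide : ∀ x : Fin 4, (∃ y : Fin 3, y.castSucc = x) ↔ ¬ ∃ _ : Fin 1, 3 = x)
  rintro ⟨A, B, h⟩
  have := h1
  rw [h.2.2.2.2] at this
  obtain ⟨σ, a, τ, b, f, g, e1, e2, e3⟩ := this
  have := k A B h σ a f e1
  have := k B A (ES.symm h) τ b g e2
  have : 5 ≤ σ.1 + τ.1 := len2 e3
  omega

theorem irrG : ¬ ∃ A B, ExactSplit G A B := by
  rintro ⟨A, B, h⟩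
  refine h.2.2.1.2 fun ⟨n, π⟩ hπ => ?_
  have : n ≤ 1 := hπ
  interval_cases n
  · rw [Subsingleton.elim π 1]; exact h.1.1
  · rw [Subsingleton.elim π 1]; exact one h

theorem m1 : merge G Y ⊆ C := by
  rintro π ⟨σ, a, τ, b, f, g, e1, e2, e3⟩
  have a' : σ.1 ≤ 1 := a
  rcases b with b | b
  · exact .inl (by have := len2 e3; omega)
  by_cases z : π.1 = 0
  · exact .inl (by omega)
  have : ∃ x, ∀ y, y ≠ x → y ∈ range g := by
    by_cases c : σ.1 = 0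
    · refine ⟨⟨0, by omega⟩, fun y _ => by_contra fun n => ?_⟩
      obtain ⟨i, -⟩ := (e3 y).2 n
      have := i.2; omega
    · refine ⟨f ⟨0, by omega⟩, fun y h => by_contra fun n => ?_⟩
      obtain ⟨i, rfl⟩ := (e3 y).2 n
      exact h (congrArg f (Fin.ext (by have := i.2; simp; omega)))
  obtain ⟨x, hx⟩ := this
  refine .inr ⟨x, fun p hp q hq l => ?_⟩
  obtain ⟨i, rfl⟩ := hx p hp
  obtain ⟨j, rfl⟩ := hx q hq
  exact (e2.2 i j).1 (b (e2.1.lt_iff_lt.1 l))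

set_option synthInstance.maxSize 4000 in
theorem m2 : C ⊆ merge G Z := by
  intro π hπ
  have : ∃ R : Finset (Fin π.1), R.card ≤ 1 ∧
      (Rᶜ.card ≤ 3 ∨ ∀ a ∉ R, ∀ b ∉ R, a < b → π.2 a < π.2 b) ∧ ∀ a ∉ R, ∀ b ∉ R, ∀ c ∉ R,
        a < b → b < c → ¬ (π.2 b < π.2 a ∧ π.2 a < π.2 c) := by
    rcases hπ with h | ⟨x, h⟩
    · obtain ⟨n, p⟩ := π
      have : n ≤ 4 := h
      interval_cases n <;> revert p <;> dsimp only <;> decide +kernel
    · have k : ∀ a ∉ ({x} : Finset _), ∀ b ∉ ({x} : Finset _), a < b → π.2 a < π.2 b :=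
        fun a ha b hb l => h (by simpa using ha) (by simpa using hb) l
      exact ⟨{x}, by simp, .inr k, fun a ha b hb c _ l _ q => lt_asymm q.1 (k a ha b hb l)⟩
  obtain ⟨R, r1, r2, r3⟩ := this
  obtain ⟨σ, f, s1, s2, s3⟩ := std π R
  obtain ⟨τ, g, t1, t2, t3⟩ := std π Rᶜ
  have n : ∀ i, g i ∉ R := fun i => by
    have : g i ∈ range g := mem_range_self i
    rw [t3] at this; simpa using this
  refine ⟨σ, s1.le.trans r1, τ, ⟨r2.imp t1.le.trans fun r a b l => (t2.2 a b).2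
    (r _ (n a) _ (n b) (t2.1 l)), fun a b c l1 l2 q => r3 _ (n a) _ (n b) _ (n c) (t2.1 l1)
    (t2.1 l2) ⟨(t2.2 _ _).1 q.1, (t2.2 _ _).1 q.2⟩⟩, f, g, s2, t2, fun x => ?_⟩
  rw [s3, t3]; simp

theorem result : ∃ C : Set P, IsClass C ∧ C.Infinite ∧
    ∃ S T, Splitting C S ∧ Splitting C T ∧ S ≠ T := by
  have zy : Z ⊆ Y := fun _ h => h.1
  have m3 : merge G Z ⊆ merge G Y := fun π ⟨σ, a, τ, b, h⟩ => ⟨σ, a, τ, zy b, h⟩
  have wC : w ∈ C := .inl le_rfl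
  have yc : Y ⊆ C := fun π h => by
    by_cases c : π.1 ≤ 4
    · exact .inl c
    · exact .inr ⟨⟨0, by omega⟩, (h.resolve_left (by omega)).strictMonoOn _⟩
  have gy : G ⊆ Y := fun π (h : π.1 ≤ 1) => .inl (by omega)
  have ss : ∀ X, X ⊆ Y → X ⊂ C := fun X h => ⟨h.trans yc, fun h' => wY (h (h' wC))⟩
  have i5 : (⟨5, 1⟩ : P) ∈ Z := ⟨.inr strictMono_id, fun a b c l _ q => lt_asymm l q.1⟩
  refine ⟨C, cC, infinite_of_injective_forall_mem (f := fun n : ℕ => (⟨n, 1⟩ : P))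
    (fun a b h => congrArg Sigma.fst h) fun n => yc (.inr strictMono_id), _, _,
    .step C G Y _ _ ⟨cG, cY, ss G gy, ss Y subset_rfl, (m2.trans m3).antisymm m1⟩
      (.base G irrG) (.base Y (irr (zy i5) subset_rfl)),
    .step C G Z _ _ ⟨cG, cZ, ss G gy, ss Z zy, m2.antisymm (m3.trans m1)⟩
      (.base G irrG) (.base Z (irr i5 zy)), fun h => ?_⟩
  have v : (⟨3, Equiv.swap 0 1⟩ : P) ∈ Y := .inl le_rfl
  have : Y ∈ ({G} ∪ {Z} : Set (Set P)) := h ▸ .inr rfl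
  rcases this with e | e
  · rw [show Y = G from e] at v
    exact absurd (show 3 ≤ 1 from v) (by decide)
  · rw [show Y = Z from e] at v
    exact v.2 (0 : Fin 3) (1 : Fin 3) (2 : Fin 3) (by decide) (by decide) (by decide)

end Pool.Agent.Results.MP_673260_co.TwoSplittings
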